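import Pool.Agent.Helper85.FN.SigmaGen

/-!
# Project FN, piece Z4: choice of the shifts
-/

set_option autoImplicit false
set_option linter.unusedVariables false

namespace Pool.Agent.Helper85.FN

open Finset
open Pool.Agent.Helper3.Thin (dig und off Lab GoodSet)
open Pool.Agent.Helper53.WR
open Pool.Agent.Helper48.FB (win crossF Cs WinLe Fs Dk LR zR dens)
open Pool.Agent.Helper96.WR (JJ BB BB_inl BB_inr mass_inr)
open Pool.Agent.Helper85.FM (BS BD und_lt off_lt top_card_le fibre_le3)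

/-- The choice of `σ` with general bounds. -/
theorem sigma_core {q : ℕ} [Fact q.Prime] (Γ : Finset (ZMod q × ZMod q))
    (T O : Finset ℕ) (S : ℕ) (hS : 0 < S) (SO QH N yS L Y : ℕ)
    (t0 V P : ℕ → ℕ) (hP : Monotone P) (MM : ℕ → ℝ) (Mod : Finset ℕ)
    (hMod : ∀ m ∈ Mod, 0 < m) (hTY : ∀ t ∈ T, t < Y) (hOS : ∀ o ∈ O, o < q ^ 4 * SO)
    (τ : ZMod q × ZMod q → ZMod q × ZMod q)
    (hV : ∀ z z' : ℕ, z ≤ z' → (win T z' S).card ≤ V z)
    (hQ : ∀ ν : ℕ, (((Γ ×ˢ Γ) ×ˢ O).filter (fun y =>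
        (und y.1.1 (y.1.2 + τ y.1.1) + y.2) % q ^ 4 = ν % q ^ 4)).card ≤ QH)
    (hM : ∀ m ∈ Mod, ∀ r : ℕ, ((((Γ ×ˢ Γ) ×ˢ ((range S) ×ˢ T)).filter (fun y =>
        (und y.1.1 (y.1.2 + τ y.1.1) + q ^ 4 * (S + y.2.1 + y.2.2)) % m = r % m)).card : ℝ)
          ≤ MM m)
    (hs : ∀ c m : ℕ, 1 ≤ m → ((Γ ×ˢ Γ).filter (fun p =>
        c ≤ (p.2 + τ p.1).2.val + (p.2 + τ p.1).1.val * q ∧
          (p.2 + τ p.1).2.val + (p.2 + τ p.1).1.val * q < c + m)).card ≤ P m)
    (AX : ℕ → ℝ) (hAX : ∀ n < N, 1 ≤ AX n)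
    (hX : ∀ n < N, (N : ℝ) * 4096 * (Real.exp (AX n *
      ((QH : ℝ) * V (n / q ^ 4 - 514 - 2 * S - SO) / S)) / AX n ^ t0 n) < 1 / 8)
    (AM : ℕ → ℝ) (hAM : ∀ m ∈ Mod, 1 ≤ AM m) (y : ℕ → ℕ)
    (hY : ∑ m ∈ Mod, (m : ℝ) * (Real.exp (AM m * (MM m / S)) / AM m ^ y m) < 1 / 2)
    (AS : ℝ) (hAS : 1 ≤ AS)
    (hSS : (S : ℝ) * (Real.exp (AS * ((Γ.card : ℝ) * Γ.card / S)) / AS ^ yS) < 1 / 4)
    (hL : (q : ℝ) ^ 4 * (2 * S + Y) * Real.exp (-(L : ℝ)) < 1 / 8) :
    ∃ σ : (ZMod q × ZMod q) × (ZMod q × ZMod q) → ℕ, (∀ p, σ p < S) ∧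
      (∀ n < N, ∀ ε : Lab, ((Γ ×ˢ Γ).filter (fun p => ∃ o ∈ O, ∃ t ∈ T,
        elt S τ σ p ε t + o = n)).card < t0 n) ∧
      (∀ m ∈ Mod, ∀ r : ℕ, ((Γ ×ˢ Γ).filter (fun p => ∃ t ∈ T,
        (und p.1 (p.2 + τ p.1) + q ^ 4 * (S + σ p + t)) % m = r % m)).card < y m) ∧
      (∀ s, ((Γ ×ˢ Γ).filter (fun p => σ p = s)).card ≤ yS) ∧
      ∀ c m z : ℕ, 1 ≤ m → ((Γ ×ˢ Γ).filter (fun p =>
        (c ≤ (p.2 + τ p.1).2.val + (p.2 + τ p.1).1.val * q ∧
          (p.2 + τ p.1).2.val + (p.2 + τ p.1).1.val * q < c + m) ∧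
            ∃ t ∈ T, S + σ p + t = z)).card * S ≤ 3 * (P m * V (z + 1 - 2 * S)) + L * S := by
  classical
  have hSr : (0 : ℝ) < S := by exact_mod_cast hS
  have hq : 0 < q := (Fact.out : q.Prime).pos
  have : NeZero q := ⟨hq.ne'⟩
  obtain ⟨σ, hσ, hcount⟩ := Pool.Agent.Helper82.WR.sigma_exists
    (ι := (ZMod q × ZMod q) × (ZMod q × ZMod q)) S hS
    (J := (JJ ⊕ ℕ) ⊕ (ℕ × ℕ × ℕ))
    (((((range N) ×ˢ (univ : Finset Lab)).disjSum (Mod.sigma (fun m => range m))).disjSum
      (range S)).disjSum ((range (q ^ 2)) ×ˢ ((Icc 1 (q ^ 2)) ×ˢ (range (2 * S + Y)))))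
    (BD Γ T O S τ)
    (by
      intro j hj i
      rcases j with ((ne | mr) | s) | c
      · show BB Γ T O S τ (Sum.inl ne) i ⊆ range S
        rw [BB_inl]
        split_ifs
        · exact filter_subset _ _
        · exact empty_subset _
      · show BB Γ T O S τ (Sum.inr mr) i ⊆ range S
        rw [BB_inr]
        split_ifs
        · exact filter_subset _ _
        · exact empty_subset _
      · rw [Finset.inl_mem_disjSum, Finset.inr_mem_disjSum] at hj
        show (if i ∈ Γ ×ˢ Γ then ({s} : Finset ℕ) else ∅) ⊆ range S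
        split_ifs
        · exact Finset.singleton_subset_iff.2 hj
        · exact empty_subset _
      · show BS Γ T S τ c i ⊆ range S
        unfold BS
        split_ifs
        · exact filter_subset _ _
        · exact empty_subset _)
    (Sum.elim (Sum.elim (Sum.elim
      (fun ne => (QH : ℝ) * V (ne.1 / q ^ 4 - 514 - 2 * S - SO) / S)
      (fun mr => MM mr.1 / S))
      (fun _ => (Γ.card : ℝ) * Γ.card / S))
      (fun j => (P j.2.1 : ℝ) * V (j.2.2 + 1 - 2 * S) / S))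
    (Sum.elim (Sum.elim (Sum.elim (fun ne => AX ne.1) (fun mr => AM mr.1)) (fun _ => AS))
      (fun _ => Real.exp 1))
    (Sum.elim (Sum.elim (Sum.elim (fun ne => t0 ne.1) (fun mr => y mr.1)) (fun _ => yS))
      (yWN S L P V))
    (by
      intro j hj
      rcases j with ((ne | mr) | s) | c
      · rw [Finset.inl_mem_disjSum, Finset.inl_mem_disjSum, Finset.inl_mem_disjSum,
          mem_product, mem_range] at hj
        simpa using hAX _ hj.1
      · rw [Finset.inl_mem_disjSum, Finset.inl_mem_disjSum, Finset.inr_mem_disjSum,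
          mem_sigma] at hj
        simpa using hAM _ hj.1
      · simpa using hAS
      · simp only [Sum.elim_inr]
        exact Real.one_le_exp zero_le_one)
    (by
      intro j hj
      rcases j with ((ne | mr) | s) | c
      · simp only [Sum.elim_inl]
        rw [div_mul_cancel₀ _ hSr.ne']
        exact_mod_cast mass_inlN Γ T O S SO QH V τ hOS hV hQ ne
      · rw [Finset.inl_mem_disjSum, Finset.inl_mem_disjSum, Finset.inr_mem_disjSum,
          mem_sigma] at hj
        simp only [Sum.elim_inr, Sum.elim_inl]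
        have h1 := mass_inr Γ T O S τ mr
        have h2 := hM mr.1 hj.1 mr.2
        rw [div_mul_cancel₀ _ hSr.ne']
        refine le_trans ?_ h2
        exact_mod_cast h1
      · simp only [Sum.elim_inr, Sum.elim_inl]
        rw [div_mul_cancel₀ _ hSr.ne']
        have h1 : ∀ p : (ZMod q × ZMod q) × (ZMod q × ZMod q),
            ((BD Γ T O S τ (Sum.inl (Sum.inr s)) p).card : ℝ) =
              if p ∈ Γ ×ˢ Γ then 1 else 0 := by
          intro p
          show ((if p ∈ Γ ×ˢ Γ then ({s} : Finset ℕ) else ∅).card : ℝ) = _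
          split_ifs <;> simp
        rw [Finset.sum_congr rfl (fun p _ => h1 p), Finset.sum_ite_mem, Finset.univ_inter,
          Finset.sum_const, card_product, nsmul_eq_mul, mul_one]
        exact_mod_cast le_refl (Γ.card * Γ.card)
      · simp only [Sum.elim_inr]
        rw [Finset.inr_mem_disjSum, mem_product, mem_product, mem_Icc] at hj
        rw [div_mul_cancel₀ _ hSr.ne']
        exact_mod_cast mass_BS Γ T S P V τ hV hs c hj.2.1.1)
    (by
      rw [Finset.sum_disjSum, Finset.sum_disjSum, Finset.sum_disjSum, Finset.sum_sigma]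
      simp only [Sum.elim_inl, Sum.elim_inr, Finset.sum_const, nsmul_eq_mul, card_range]
      have h4096 : (univ : Finset Lab).card = 4096 := by
        simp [Lab]
      -- the cross sums
      have e1 : ∑ ne ∈ (range N) ×ˢ (univ : Finset Lab),
          Real.exp (AX ne.1 * ((QH : ℝ) * V (ne.1 / q ^ 4 - 514 - 2 * S - SO) / S)) /
            AX ne.1 ^ t0 ne.1 ≤ 1 / 8 := by
        rw [Finset.sum_product (range N) (univ : Finset Lab)]
        simp only [Finset.sum_const, h4096, nsmul_eq_mul]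
        rcases Nat.eq_zero_or_pos N with hN | hN
        · subst hN
          simp
        · have hNr : (0 : ℝ) < N := by exact_mod_cast hN
          calc ∑ n ∈ range N, ((4096 : ℕ) : ℝ) *
                (Real.exp (AX n * ((QH : ℝ) * V (n / q ^ 4 - 514 - 2 * S - SO) / S)) /
                  AX n ^ t0 n)
              ≤ ∑ n ∈ range N, 1 / 8 / (N : ℝ) := by
                refine Finset.sum_le_sum (fun n hn => ?_)
                rw [mem_range] at hn
                have h1 := hX n hn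
                rw [le_div_iff₀ hNr]
                push_cast
                linarith
            _ = 1 / 8 := by
                rw [Finset.sum_const, card_range, nsmul_eq_mul]
                field_simp
      -- the windows
      have e2 : ∑ j ∈ (range (q ^ 2)) ×ˢ ((Icc 1 (q ^ 2)) ×ˢ (range (2 * S + Y))),
          Real.exp (Real.exp 1 * ((P j.2.1 : ℝ) * V (j.2.2 + 1 - 2 * S) / S)) /
            Real.exp 1 ^ yWN S L P V j < 1 / 8 := by
        refine lt_of_le_of_lt (Finset.sum_le_sum (fun j _ => exp_windowN hS P V j)) ?_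
        rw [Finset.sum_const, card_product, card_product, card_range, card_range, Nat.card_Icc,
          nsmul_eq_mul]
        refine lt_of_le_of_lt (le_of_eq ?_) hL
        have : q ^ 2 + 1 - 1 = q ^ 2 := by omega
        rw [this]
        push_cast
        ring
      linarith)
  refine ⟨σ, hσ, ?_, ?_, ?_, ?_⟩
  · intro n hn ε
    have h := hcount (Sum.inl (Sum.inl (Sum.inl (n, ε)))) (by
      rw [Finset.inl_mem_disjSum, Finset.inl_mem_disjSum, Finset.inl_mem_disjSum, mem_product,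
        mem_range]
      exact ⟨hn, mem_univ _⟩)
    simp only [Sum.elim_inl] at h
    refine lt_of_le_of_lt (card_le_card ?_) h
    intro p hp
    rw [mem_filter] at hp
    obtain ⟨hp, o, ho, t, ht, he⟩ := hp
    rw [mem_filter]
    refine ⟨mem_univ _, ?_⟩
    show σ p ∈ BB Γ T O S τ (Sum.inl (n, ε)) p
    rw [BB_inl]
    rw [if_pos hp, mem_filter, mem_range]
    exact ⟨hσ p, o, ho, t, ht, he⟩
  · intro m hm r
    have h := hcount (Sum.inl (Sum.inl (Sum.inr ⟨m, r % m⟩))) (by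
      rw [Finset.inl_mem_disjSum, Finset.inl_mem_disjSum, Finset.inr_mem_disjSum, mem_sigma,
        mem_range]
      exact ⟨hm, Nat.mod_lt _ (hMod m hm)⟩)
    simp only [Sum.elim_inr, Sum.elim_inl] at h
    refine lt_of_le_of_lt (card_le_card ?_) h
    intro p hp
    rw [mem_filter] at hp
    obtain ⟨hp, t, ht, he⟩ := hp
    rw [mem_filter]
    refine ⟨mem_univ _, ?_⟩
    show σ p ∈ BB Γ T O S τ (Sum.inr ⟨m, r % m⟩) p
    rw [BB_inr]
    rw [if_pos hp, mem_filter, mem_range]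
    exact ⟨hσ p, t, ht, by simpa using he⟩
  · intro s
    by_cases hs : s < S
    · have h := hcount (Sum.inl (Sum.inr s)) (by
        rw [Finset.inl_mem_disjSum, Finset.inr_mem_disjSum, mem_range]
        exact hs)
      simp only [Sum.elim_inr, Sum.elim_inl] at h
      refine le_of_lt (lt_of_le_of_lt (card_le_card ?_) h)
      intro p hp
      rw [mem_filter] at hp
      rw [mem_filter]
      refine ⟨mem_univ _, ?_⟩
      show σ p ∈ (if p ∈ Γ ×ˢ Γ then ({s} : Finset ℕ) else ∅)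
      rw [if_pos hp.1, mem_singleton]
      exact hp.2
    · have h0 : (Γ ×ˢ Γ).filter (fun p => σ p = s) = ∅ := by
        apply Finset.filter_eq_empty_iff.2
        intro p _ hp
        exact hs (hp ▸ hσ p)
      rw [h0, card_empty]
      exact Nat.zero_le _
  · -- the windows
    have hbase : ∀ c m z : ℕ, c < q ^ 2 → 1 ≤ m → m ≤ q ^ 2 → z < 2 * S + Y →
        ((Γ ×ˢ Γ).filter (fun p =>
        (c ≤ (p.2 + τ p.1).2.val + (p.2 + τ p.1).1.val * q ∧
          (p.2 + τ p.1).2.val + (p.2 + τ p.1).1.val * q < c + m) ∧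
            ∃ t ∈ T, S + σ p + t = z)).card * S ≤ 3 * (P m * V (z + 1 - 2 * S)) + L * S := by
      intro c m z hc hm hm' hz
      have h := hcount (Sum.inr (c, m, z)) (by
        rw [Finset.inr_mem_disjSum, mem_product, mem_product, mem_range, mem_Icc, mem_range]
        exact ⟨hc, ⟨hm, hm'⟩, hz⟩)
      simp only [Sum.elim_inr] at h
      have h1 : ((Γ ×ˢ Γ).filter (fun p =>
          (c ≤ (p.2 + τ p.1).2.val + (p.2 + τ p.1).1.val * q ∧
            (p.2 + τ p.1).2.val + (p.2 + τ p.1).1.val * q < c + m) ∧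
              ∃ t ∈ T, S + σ p + t = z)).card < yWN S L P V (c, m, z) := by
        refine lt_of_le_of_lt (card_le_card ?_) h
        intro p hp
        rw [mem_filter] at hp
        obtain ⟨hp, hst, t, ht, he⟩ := hp
        rw [mem_filter]
        refine ⟨mem_univ _, ?_⟩
        show σ p ∈ BS Γ T S τ (c, m, z) p
        unfold BS
        rw [if_pos (by rw [mem_filter]; exact ⟨hp, hst⟩), mem_filter, mem_range]
        exact ⟨hσ p, t, ht, he⟩
      unfold yWN at h1
      simp only at h1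
      have h2 := Nat.lt_succ_iff.mp h1
      calc _ ≤ (3 * (P m * V (z + 1 - 2 * S)) / S + L) * S := Nat.mul_le_mul_right _ h2
        _ = 3 * (P m * V (z + 1 - 2 * S)) / S * S + L * S := by ring
        _ ≤ _ := Nat.add_le_add_right (Nat.div_mul_le_self _ _) _
    intro c m z hm
    have hlt : ∀ p : (ZMod q × ZMod q) × (ZMod q × ZMod q),
        (p.2 + τ p.1).2.val + (p.2 + τ p.1).1.val * q < q ^ 2 := fun p =>
      Pool.Agent.Helper3.Thin.two_digits_lt (ZMod.val_lt _) (ZMod.val_lt _)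
    by_cases hz : z < 2 * S + Y
    · by_cases hc : c < q ^ 2
      · by_cases hm' : m ≤ q ^ 2
        · exact hbase c m z hc hm hm' hz
        · have hq2 : 1 ≤ q ^ 2 := Nat.one_le_pow _ _ hq
          refine le_trans (Nat.mul_le_mul_right _ (card_le_card ?_))
            (le_trans (hbase c (q ^ 2) z hc hq2 le_rfl hz) ?_)
          · intro p hp
            rw [mem_filter] at hp ⊢
            have := hlt p
            exact ⟨hp.1, ⟨hp.2.1.1, by omega⟩, hp.2.2⟩
          · have : P (q ^ 2) ≤ P m := hP (by omega)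
            have := Nat.mul_le_mul_right (V (z + 1 - 2 * S)) this
            omega
      · rw [Finset.filter_eq_empty_iff.2, card_empty]
        · omega
        · intro p _ hp
          have := hlt p
          omega
    · rw [Finset.filter_eq_empty_iff.2, card_empty]
      · omega
      · rintro p _ ⟨_, t, ht, he⟩
        have := hTY t ht
        have := hσ p
        omega


/-- FN-Z4 (choice of `σ`). -/
theorem sigma_select4 {q : ℕ} [Fact q.Prime] (Γ : Finset (ZMod q × ZMod q))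
    (T O : Finset ℕ) (S S' : ℕ) (hS : 0 < S) (H' N L Y K La : ℕ)
    (t0 V : ℕ → ℕ) (Mod : Finset ℕ)
    (hMod : ∀ m ∈ Mod, 0 < m) (hTY : ∀ t ∈ T, t < Y) (hOS : ∀ o ∈ O, o < q ^ 4 * S')
    (τ : ZMod q × ZMod q → ZMod q × ZMod q)
    (hV : ∀ z z' : ℕ, z ≤ z' → (win T z' S).card ≤ V z)
    (hQ : ∀ ν : ℕ, (((Γ ×ˢ Γ) ×ˢ O).filter (fun y =>
        (und y.1.1 (y.1.2 + τ y.1.1) + y.2) % q ^ 4 = ν % q ^ 4)).card ≤ H')
    (M : ℕ → ℝ)
    (hM : ∀ m ∈ Mod, ∀ r : ℕ, ((((Γ ×ˢ Γ) ×ˢ ((range S) ×ˢ T)).filter (fun y =>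
        (und y.1.1 (y.1.2 + τ y.1.1) + q ^ 4 * (S + y.2.1 + y.2.2)) % m = r % m)).card : ℝ)
          ≤ M m)
    (hs : ∀ c m : ℕ, 1 ≤ m → ((Γ ×ˢ Γ).filter (fun p =>
        c ≤ (p.2 + τ p.1).2.val + (p.2 + τ p.1).1.val * q ∧
          (p.2 + τ p.1).2.val + (p.2 + τ p.1).1.val * q < c + m)).card ≤ K * (m + La))
    (AX : ℕ → ℝ) (hAX : ∀ n < N, 1 ≤ AX n)
    (hX : ∀ n < N, (N : ℝ) * 4096 * (Real.exp (AX n *
      ((H' : ℝ) * V (n / q ^ 4 - 514 - 2 * S - S') / S)) / AX n ^ t0 n) < 1 / 8)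
    (AM : ℕ → ℝ) (hAM : ∀ m ∈ Mod, 1 ≤ AM m) (y : ℕ → ℕ)
    (hY : ∑ m ∈ Mod, (m : ℝ) * (Real.exp (AM m * (M m / S)) / AM m ^ y m) < 1 / 2)
    (hL : (q : ℝ) ^ 4 * (2 * S + Y) * Real.exp (-(L : ℝ)) < 1 / 8) :
    ∃ σ : (ZMod q × ZMod q) × (ZMod q × ZMod q) → ℕ, (∀ p, σ p < S) ∧
      (∀ n < N, ∀ ε : Lab, ((Γ ×ˢ Γ).filter (fun p => ∃ o ∈ O, ∃ t ∈ T,
        elt S τ σ p ε t + o = n)).card < t0 n) ∧
      (∀ m ∈ Mod, ∀ r : ℕ, ((Γ ×ˢ Γ).filter (fun p => ∃ t ∈ T,
        (und p.1 (p.2 + τ p.1) + q ^ 4 * (S + σ p + t)) % m = r % m)).card < y m) ∧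
      ∀ c m z : ℕ, 1 ≤ m → ((Γ ×ˢ Γ).filter (fun p =>
        (c ≤ (p.2 + τ p.1).2.val + (p.2 + τ p.1).1.val * q ∧
          (p.2 + τ p.1).2.val + (p.2 + τ p.1).1.val * q < c + m) ∧
            ∃ t ∈ T, S + σ p + t = z)).card * S
              ≤ 3 * (K * (m + La) * V (z + 1 - 2 * S)) + L * S := by
  classical
  -- a trivial threshold for the fibres of `σ`
  obtain ⟨yS, hyS⟩ : ∃ yS : ℕ, (S : ℝ) * (Real.exp (2 * ((Γ.card : ℝ) * Γ.card / S)) / 2 ^ yS)
      < 1 / 4 := by
    obtain ⟨n, hn⟩ := pow_unbounded_of_one_lt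
      (4 * ((S : ℝ) * Real.exp (2 * ((Γ.card : ℝ) * Γ.card / S)))) (by norm_num : (1 : ℝ) < 2)
    refine ⟨n, ?_⟩
    have h2 : (0 : ℝ) < 2 ^ n := by positivity
    rw [← mul_div_assoc, div_lt_iff₀ h2]
    linarith
  obtain ⟨σ, h1, h2, h3, -, h5⟩ := sigma_core Γ T O S hS S' H' N yS L Y t0 V
    (fun m => K * (m + La)) (fun m m' h => by
      show K * (m + La) ≤ K * (m' + La)
      exact Nat.mul_le_mul_left _ (Nat.add_le_add_right h _))
    M Mod hMod hTY hOS τ hV hQ hM hs AX hAX hX AM hAM y hY 2 (by norm_num) hyS hL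
  exact ⟨σ, h1, h2, h3, h5⟩

end Pool.Agent.Helper85.FN
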