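import Pool.Agent.Helper85.FM.B1

/-!
# Project FN: choice of the shifts, general form

As `sigma_select3`, with general bounds for the older elements, the masses and the strips.
-/

set_option autoImplicit false
set_option linter.unusedVariables false

namespace Pool.Agent.Helper85.FN

open Finset
open Pool.Agent.Helper3.Thin (dig und off Lab GoodSet)
open Pool.Agent.Helper53.WR
open Pool.Agent.Helper48.FB (win crossF Cs WinLe Fs Dk LR zR dens)
open Pool.Agent.Helper96.WR (JJ BB BB_inl BB_inr mass_inr)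
open Pool.Agent.Helper85.FM (BS BD und_lt off_lt top_card_le fibre_le3)

open Classical in
lemma mass_inlN {q : ℕ} [Fact q.Prime] (Γ : Finset (ZMod q × ZMod q))
    (T O : Finset ℕ) (S SO QH : ℕ) (V : ℕ → ℕ) (τ : ZMod q × ZMod q → ZMod q × ZMod q)
    (hOS : ∀ o ∈ O, o < q ^ 4 * SO)
    (hV : ∀ z z' : ℕ, z ≤ z' → (win T z' S).card ≤ V z)
    (hQ : ∀ ν : ℕ, (((Γ ×ˢ Γ) ×ˢ O).filter (fun y =>
        (und y.1.1 (y.1.2 + τ y.1.1) + y.2) % q ^ 4 = ν % q ^ 4)).card ≤ QH)
    (ne : ℕ × Lab) :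
    ∑ p, (BB Γ T O S τ (Sum.inl ne) p).card ≤ QH * V (ne.1 / q ^ 4 - 514 - 2 * S - SO) := by
  have hq : 0 < q := (Fact.out : q.Prime).pos
  have hq2 : 2 ≤ q := (Fact.out : q.Prime).two_le
  have hq4 : 0 < q ^ 4 := by positivity
  set W := V (ne.1 / q ^ 4 - 514 - 2 * S - SO) with hWdef
  by_cases hn : off q ne.2 ≤ ne.1
  · obtain ⟨ν, hν⟩ := Nat.exists_eq_add_of_le hn
    have h1 : ∀ p, (BB Γ T O S τ (Sum.inl ne) p).card ≤
        if p ∈ Γ ×ˢ Γ then ∑ o ∈ O, (if (und p.1 (p.2 + τ p.1) + o) % q ^ 4 = ν % q ^ 4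
          then W else 0) else 0 := by
      intro p
      rw [BB_inl]
      by_cases hp : p ∈ Γ ×ˢ Γ
      · rw [if_pos hp, if_pos hp]
        calc _ ≤ (O.biUnion (fun o => (range S).filter (fun s => ∃ t ∈ T,
              und p.1 (p.2 + τ p.1) + q ^ 4 * (S + s + t) + o = ν))).card := by
              apply card_le_card
              intro s hs
              rw [mem_filter] at hs
              obtain ⟨hs, o, ho, t, ht, h⟩ := hs
              rw [mem_biUnion]
              refine ⟨o, ho, ?_⟩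
              rw [mem_filter]
              exact ⟨hs, t, ht, by omega⟩
          _ ≤ ∑ o ∈ O, ((range S).filter (fun s => ∃ t ∈ T,
              und p.1 (p.2 + τ p.1) + q ^ 4 * (S + s + t) + o = ν)).card := card_biUnion_le
          _ ≤ _ := by
              refine Finset.sum_le_sum (fun o ho => fibre_le3 hq T S W _ ν o ?_)
              intro c hc
              refine hV _ _ ?_
              have g1 := und_lt p.1 (p.2 + τ p.1)
              have g2 := off_lt hq2 ne.2
              have g3 := hOS o ho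
              have g4 : ne.1 < (514 + c + SO) * q ^ 4 := by
                have e1 : (514 + c + SO) * q ^ 4 = 513 * q ^ 4 + q ^ 4 + q ^ 4 * c + q ^ 4 * SO := by
                  ring
                rw [e1]
                omega
              have g5 : ne.1 / q ^ 4 < 514 + c + SO := (Nat.div_lt_iff_lt_mul hq4).mpr g4
              omega
      · rw [if_neg hp, if_neg hp, card_empty]
    calc ∑ p, (BB Γ T O S τ (Sum.inl ne) p).card
        ≤ ∑ p, (if p ∈ Γ ×ˢ Γ then ∑ o ∈ O,
          (if (und p.1 (p.2 + τ p.1) + o) % q ^ 4 = ν % q ^ 4 then W else 0) else 0) :=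
          Finset.sum_le_sum (fun p _ => h1 p)
      _ = ∑ p ∈ Γ ×ˢ Γ, ∑ o ∈ O,
          (if (und p.1 (p.2 + τ p.1) + o) % q ^ 4 = ν % q ^ 4 then W else 0) := by
          rw [Finset.sum_ite_mem, Finset.univ_inter]
      _ = ∑ y ∈ (Γ ×ˢ Γ) ×ˢ O,
          (if (und y.1.1 (y.1.2 + τ y.1.1) + y.2) % q ^ 4 = ν % q ^ 4 then W else 0) := by
          rw [Finset.sum_product (Γ ×ˢ Γ) O]
      _ = (((Γ ×ˢ Γ) ×ˢ O).filter (fun y =>
          (und y.1.1 (y.1.2 + τ y.1.1) + y.2) % q ^ 4 = ν % q ^ 4)).card * W := by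
          rw [← Finset.sum_filter, Finset.sum_const, smul_eq_mul]
      _ ≤ QH * W := by
          gcongr
          exact hQ ν
  · have h1 : ∀ p, (BB Γ T O S τ (Sum.inl ne) p).card = 0 := by
      intro p
      rw [card_eq_zero]
      rw [BB_inl]
      split_ifs with hp
      · apply Finset.filter_eq_empty_iff.2
        intro s _
        push Not
        intro o _ t _
        omega
      · rfl
    rw [Finset.sum_eq_zero (fun p _ => h1 p)]
    exact Nat.zero_le _

lemma mass_BS {q : ℕ} [Fact q.Prime] (Γ : Finset (ZMod q × ZMod q)) (T : Finset ℕ) (S : ℕ) (P : ℕ → ℕ)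
    (V : ℕ → ℕ) (τ : ZMod q × ZMod q → ZMod q × ZMod q)
    (hV : ∀ z z' : ℕ, z ≤ z' → (win T z' S).card ≤ V z)
    (hs : ∀ c m : ℕ, 1 ≤ m → ((Γ ×ˢ Γ).filter (fun p =>
        c ≤ (p.2 + τ p.1).2.val + (p.2 + τ p.1).1.val * q ∧
          (p.2 + τ p.1).2.val + (p.2 + τ p.1).1.val * q < c + m)).card ≤ P m)
    (j : ℕ × ℕ × ℕ) (hj : 1 ≤ j.2.1) :
    ∑ p, (BS Γ T S τ j p).card ≤ P j.2.1 * V (j.2.2 + 1 - 2 * S) := by
  have h1 : ∀ p, (BS Γ T S τ j p).card ≤
      if p ∈ (Γ ×ˢ Γ).filter (fun p => j.1 ≤ (p.2 + τ p.1).2.val + (p.2 + τ p.1).1.val * q ∧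
        (p.2 + τ p.1).2.val + (p.2 + τ p.1).1.val * q < j.1 + j.2.1) then
        V (j.2.2 + 1 - 2 * S) else 0 := by
    intro p
    unfold BS
    split_ifs
    · exact le_trans (top_card_le T S j.2.2) (hV _ _ le_rfl)
    · simp
  refine le_trans (Finset.sum_le_sum (fun p _ => h1 p)) ?_
  rw [Finset.sum_ite_mem, Finset.univ_inter, Finset.sum_const, smul_eq_mul]
  exact Nat.mul_le_mul_right _ (hs j.1 j.2.1 hj)

/-- The threshold for the event of a short window. -/
def yWN (S L : ℕ) (P V : ℕ → ℕ) (j : ℕ × ℕ × ℕ) : ℕ :=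
  3 * (P j.2.1 * V (j.2.2 + 1 - 2 * S)) / S + L + 1

lemma exp_windowN {S L : ℕ} (hS : 0 < S) (P V : ℕ → ℕ) (j : ℕ × ℕ × ℕ) :
    Real.exp (Real.exp 1 * ((P j.2.1 : ℝ) * V (j.2.2 + 1 - 2 * S) / S)) /
      Real.exp 1 ^ yWN S L P V j ≤ Real.exp (-(L : ℝ)) := by
  have hSr : (0 : ℝ) < S := by exact_mod_cast hS
  rw [← Real.exp_nat_mul, ← Real.exp_sub, Real.exp_le_exp]
  set M := P j.2.1 * V (j.2.2 + 1 - 2 * S) with hM
  have e1 : (P j.2.1 : ℝ) * V (j.2.2 + 1 - 2 * S) = (M : ℝ) := by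
    rw [hM]
    push_cast
    ring
  rw [e1]
  have h1 : Real.exp 1 * ((M : ℝ) / S) ≤ 3 * ((M : ℝ) / S) :=
    mul_le_mul_of_nonneg_right (by have := Real.exp_one_lt_d9; linarith) (by positivity)
  have h2 : 3 * ((M : ℝ) / S) ≤ ((3 * M / S : ℕ) : ℝ) + 1 := by
    have h3 : 3 * M < S * (3 * M / S + 1) := by
      have h4 := Nat.div_add_mod (3 * M) S
      have h5 := Nat.mod_lt (3 * M) hS
      have h6 : S * (3 * M / S + 1) = S * (3 * M / S) + S := by ring
      omega
    have h7 : (3 : ℝ) * M < S * (((3 * M / S : ℕ) : ℝ) + 1) := by exact_mod_cast h3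
    have h8 : 3 * ((M : ℝ) / S) = 3 * M / S := by ring
    rw [h8, div_le_iff₀ hSr]
    linarith
  have h3 : ((yWN S L P V j : ℕ) : ℝ) = ((3 * M / S : ℕ) : ℝ) + L + 1 := by
    unfold yWN
    rw [← hM]
    push_cast
    ring
  rw [h3]
  linarith

/-- FM-B1 (choice of `σ`). -/
theorem sigma_selectN {q : ℕ} [Fact q.Prime] (Γ : Finset (ZMod q × ZMod q))
    (hΓ : Γ.card ≤ 3 * q) (T O : Finset ℕ) (S : ℕ) (hS : 0 < S) (SO QH N yS L Y : ℕ)
    (t0 V P : ℕ → ℕ) (hP : Monotone P) (MM : ℕ → ℝ) (Mod : Finset ℕ)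
    (hMod : ∀ m ∈ Mod, 0 < m) (hTY : ∀ t ∈ T, t < Y) (hOS : ∀ o ∈ O, o < q ^ 4 * SO)
    (τ : ZMod q × ZMod q → ZMod q × ZMod q)
    (hV : ∀ z z' : ℕ, z ≤ z' → (win T z' S).card ≤ V z)
    (hQ : ∀ ν : ℕ, (((Γ ×ˢ Γ) ×ˢ O).filter (fun y =>
        (und y.1.1 (y.1.2 + τ y.1.1) + y.2) % q ^ 4 = ν % q ^ 4)).card ≤ QH)
    (hM : ∀ m ∈ Mod, ∀ r : ℕ, ((((Γ ×ˢ Γ) ×ˢ ((range S) ×ˢ T)).filter (fun y =>
        (und y.1.1 (y.1.2 + τ y.1.1) + q ^ 4 * (S + y.2.1 + y.2.2)) % m = r % m)).card : ℝ)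
          ≤ MM m)
    (hs : ∀ c m : ℕ, 1 ≤ m → ((Γ ×ˢ Γ).filter (fun p =>
        c ≤ (p.2 + τ p.1).2.val + (p.2 + τ p.1).1.val * q ∧
          (p.2 + τ p.1).2.val + (p.2 + τ p.1).1.val * q < c + m)).card ≤ P m)
    (AX : ℕ → ℝ) (hAX : ∀ n < N, 1 ≤ AX n)
    (hX : ∀ n < N, (N : ℝ) * 4096 * (Real.exp (AX n *
      ((QH : ℝ) * V (n / q ^ 4 - 514 - 2 * S - SO) / S)) / AX n ^ t0 n) < 1 / 8)
    (AM : ℕ → ℝ) (hAM : ∀ m ∈ Mod, 1 ≤ AM m) (y : ℕ → ℕ)
    (hY : ∑ m ∈ Mod, (m : ℝ) * (Real.exp (AM m * (MM m / S)) / AM m ^ y m) < 1 / 2)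
    (AS : ℝ) (hAS : 1 ≤ AS)
    (hSS : (S : ℝ) * (Real.exp (AS * (9 * (q : ℝ) ^ 2 / S)) / AS ^ yS) < 1 / 4)
    (hL : (q : ℝ) ^ 4 * (2 * S + Y) * Real.exp (-(L : ℝ)) < 1 / 8) :
    ∃ σ : (ZMod q × ZMod q) × (ZMod q × ZMod q) → ℕ, (∀ p, σ p < S) ∧
      (∀ n < N, ∀ ε : Lab, ((Γ ×ˢ Γ).filter (fun p => ∃ o ∈ O, ∃ t ∈ T,
        elt S τ σ p ε t + o = n)).card < t0 n) ∧
      (∀ m ∈ Mod, ∀ r : ℕ, ((Γ ×ˢ Γ).filter (fun p => ∃ t ∈ T,
        (und p.1 (p.2 + τ p.1) + q ^ 4 * (S + σ p + t)) % m = r % m)).card < y m) ∧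
      (∀ s, ((Γ ×ˢ Γ).filter (fun p => σ p = s)).card ≤ yS) ∧
      ∀ c m z : ℕ, 1 ≤ m → ((Γ ×ˢ Γ).filter (fun p =>
        (c ≤ (p.2 + τ p.1).2.val + (p.2 + τ p.1).1.val * q ∧
          (p.2 + τ p.1).2.val + (p.2 + τ p.1).1.val * q < c + m) ∧
            ∃ t ∈ T, S + σ p + t = z)).card * S ≤ 3 * (P m * V (z + 1 - 2 * S)) + L * S := by
  classical
  have hSr : (0 : ℝ) < S := by exact_mod_cast hS
  have hq : 0 < q := (Fact.out : q.Prime).pos
  have : NeZero q := ⟨hq.ne'⟩
  obtain ⟨σ, hσ, hcount⟩ := Pool.Agent.Helper82.WR.sigma_exists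
    (ι := (ZMod q × ZMod q) × (ZMod q × ZMod q)) S hS
    (J := (JJ ⊕ ℕ) ⊕ (ℕ × ℕ × ℕ))
    (((((range N) ×ˢ (univ : Finset Lab)).disjSum (Mod.sigma (fun m => range m))).disjSum
      (range S)).disjSum ((range (q ^ 2)) ×ˢ ((Icc 1 (q ^ 2)) ×ˢ (range (2 * S + Y)))))
    (BD Γ T O S τ)
    (by
      intro j hj i
      rcases j with ((ne | mr) | s) | c
      · show BB Γ T O S τ (Sum.inl ne) i ⊆ range S
        rw [BB_inl]
        split_ifs
        · exact filter_subset _ _
        · exact empty_subset _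
      · show BB Γ T O S τ (Sum.inr mr) i ⊆ range S
        rw [BB_inr]
        split_ifs
        · exact filter_subset _ _
        · exact empty_subset _
      · rw [Finset.inl_mem_disjSum, Finset.inr_mem_disjSum] at hj
        show (if i ∈ Γ ×ˢ Γ then ({s} : Finset ℕ) else ∅) ⊆ range S
        split_ifs
        · exact Finset.singleton_subset_iff.2 hj
        · exact empty_subset _
      · show BS Γ T S τ c i ⊆ range S
        unfold BS
        split_ifs
        · exact filter_subset _ _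
        · exact empty_subset _)
    (Sum.elim (Sum.elim (Sum.elim
      (fun ne => (QH : ℝ) * V (ne.1 / q ^ 4 - 514 - 2 * S - SO) / S)
      (fun mr => MM mr.1 / S))
      (fun _ => 9 * (q : ℝ) ^ 2 / S))
      (fun j => (P j.2.1 : ℝ) * V (j.2.2 + 1 - 2 * S) / S))
    (Sum.elim (Sum.elim (Sum.elim (fun ne => AX ne.1) (fun mr => AM mr.1)) (fun _ => AS))
      (fun _ => Real.exp 1))
    (Sum.elim (Sum.elim (Sum.elim (fun ne => t0 ne.1) (fun mr => y mr.1)) (fun _ => yS))
      (yWN S L P V))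
    (by
      intro j hj
      rcases j with ((ne | mr) | s) | c
      · rw [Finset.inl_mem_disjSum, Finset.inl_mem_disjSum, Finset.inl_mem_disjSum,
          mem_product, mem_range] at hj
        simpa using hAX _ hj.1
      · rw [Finset.inl_mem_disjSum, Finset.inl_mem_disjSum, Finset.inr_mem_disjSum,
          mem_sigma] at hj
        simpa using hAM _ hj.1
      · simpa using hAS
      · simp only [Sum.elim_inr]
        exact Real.one_le_exp zero_le_one)
    (by
      intro j hj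
      rcases j with ((ne | mr) | s) | c
      · simp only [Sum.elim_inl]
        rw [div_mul_cancel₀ _ hSr.ne']
        exact_mod_cast mass_inlN Γ T O S SO QH V τ hOS hV hQ ne
      · rw [Finset.inl_mem_disjSum, Finset.inl_mem_disjSum, Finset.inr_mem_disjSum,
          mem_sigma] at hj
        simp only [Sum.elim_inr, Sum.elim_inl]
        have h1 := mass_inr Γ T O S τ mr
        have h2 := hM mr.1 hj.1 mr.2
        rw [div_mul_cancel₀ _ hSr.ne']
        refine le_trans ?_ h2
        exact_mod_cast h1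
      · simp only [Sum.elim_inr, Sum.elim_inl]
        rw [div_mul_cancel₀ _ hSr.ne']
        have h1 : ∀ p : (ZMod q × ZMod q) × (ZMod q × ZMod q),
            ((BD Γ T O S τ (Sum.inl (Sum.inr s)) p).card : ℝ) =
              if p ∈ Γ ×ˢ Γ then 1 else 0 := by
          intro p
          show ((if p ∈ Γ ×ˢ Γ then ({s} : Finset ℕ) else ∅).card : ℝ) = _
          split_ifs <;> simp
        rw [Finset.sum_congr rfl (fun p _ => h1 p), Finset.sum_ite_mem, Finset.univ_inter,
          Finset.sum_const, card_product, nsmul_eq_mul, mul_one]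
        have h2 : Γ.card * Γ.card ≤ 9 * q ^ 2 := by
          calc Γ.card * Γ.card ≤ (3 * q) * (3 * q) := Nat.mul_le_mul hΓ hΓ
            _ = 9 * q ^ 2 := by ring
        exact_mod_cast h2
      · simp only [Sum.elim_inr]
        rw [Finset.inr_mem_disjSum, mem_product, mem_product, mem_Icc] at hj
        rw [div_mul_cancel₀ _ hSr.ne']
        exact_mod_cast mass_BS Γ T S P V τ hV hs c hj.2.1.1)
    (by
      rw [Finset.sum_disjSum, Finset.sum_disjSum, Finset.sum_disjSum, Finset.sum_sigma]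
      simp only [Sum.elim_inl, Sum.elim_inr, Finset.sum_const, nsmul_eq_mul, card_range]
      have h4096 : (univ : Finset Lab).card = 4096 := by
        simp [Lab]
      -- the cross sums
      have e1 : ∑ ne ∈ (range N) ×ˢ (univ : Finset Lab),
          Real.exp (AX ne.1 * ((QH : ℝ) * V (ne.1 / q ^ 4 - 514 - 2 * S - SO) / S)) /
            AX ne.1 ^ t0 ne.1 ≤ 1 / 8 := by
        rw [Finset.sum_product (range N) (univ : Finset Lab)]
        simp only [Finset.sum_const, h4096, nsmul_eq_mul]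
        rcases Nat.eq_zero_or_pos N with hN | hN
        · subst hN
          simp
        · have hNr : (0 : ℝ) < N := by exact_mod_cast hN
          calc ∑ n ∈ range N, ((4096 : ℕ) : ℝ) *
                (Real.exp (AX n * ((QH : ℝ) * V (n / q ^ 4 - 514 - 2 * S - SO) / S)) /
                  AX n ^ t0 n)
              ≤ ∑ n ∈ range N, 1 / 8 / (N : ℝ) := by
                refine Finset.sum_le_sum (fun n hn => ?_)
                rw [mem_range] at hn
                have h1 := hX n hn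
                rw [le_div_iff₀ hNr]
                push_cast
                linarith
            _ = 1 / 8 := by
                rw [Finset.sum_const, card_range, nsmul_eq_mul]
                field_simp
      -- the windows
      have e2 : ∑ j ∈ (range (q ^ 2)) ×ˢ ((Icc 1 (q ^ 2)) ×ˢ (range (2 * S + Y))),
          Real.exp (Real.exp 1 * ((P j.2.1 : ℝ) * V (j.2.2 + 1 - 2 * S) / S)) /
            Real.exp 1 ^ yWN S L P V j < 1 / 8 := by
        refine lt_of_le_of_lt (Finset.sum_le_sum (fun j _ => exp_windowN hS P V j)) ?_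
        rw [Finset.sum_const, card_product, card_product, card_range, card_range, Nat.card_Icc,
          nsmul_eq_mul]
        refine lt_of_le_of_lt (le_of_eq ?_) hL
        have : q ^ 2 + 1 - 1 = q ^ 2 := by omega
        rw [this]
        push_cast
        ring
      linarith)
  refine ⟨σ, hσ, ?_, ?_, ?_, ?_⟩
  · intro n hn ε
    have h := hcount (Sum.inl (Sum.inl (Sum.inl (n, ε)))) (by
      rw [Finset.inl_mem_disjSum, Finset.inl_mem_disjSum, Finset.inl_mem_disjSum, mem_product,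
        mem_range]
      exact ⟨hn, mem_univ _⟩)
    simp only [Sum.elim_inl] at h
    refine lt_of_le_of_lt (card_le_card ?_) h
    intro p hp
    rw [mem_filter] at hp
    obtain ⟨hp, o, ho, t, ht, he⟩ := hp
    rw [mem_filter]
    refine ⟨mem_univ _, ?_⟩
    show σ p ∈ BB Γ T O S τ (Sum.inl (n, ε)) p
    rw [BB_inl]
    rw [if_pos hp, mem_filter, mem_range]
    exact ⟨hσ p, o, ho, t, ht, he⟩
  · intro m hm r
    have h := hcount (Sum.inl (Sum.inl (Sum.inr ⟨m, r % m⟩))) (by
      rw [Finset.inl_mem_disjSum, Finset.inl_mem_disjSum, Finset.inr_mem_disjSum, mem_sigma,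
        mem_range]
      exact ⟨hm, Nat.mod_lt _ (hMod m hm)⟩)
    simp only [Sum.elim_inr, Sum.elim_inl] at h
    refine lt_of_le_of_lt (card_le_card ?_) h
    intro p hp
    rw [mem_filter] at hp
    obtain ⟨hp, t, ht, he⟩ := hp
    rw [mem_filter]
    refine ⟨mem_univ _, ?_⟩
    show σ p ∈ BB Γ T O S τ (Sum.inr ⟨m, r % m⟩) p
    rw [BB_inr]
    rw [if_pos hp, mem_filter, mem_range]
    exact ⟨hσ p, t, ht, by simpa using he⟩
  · intro s
    by_cases hs : s < S
    · have h := hcount (Sum.inl (Sum.inr s)) (by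
        rw [Finset.inl_mem_disjSum, Finset.inr_mem_disjSum, mem_range]
        exact hs)
      simp only [Sum.elim_inr, Sum.elim_inl] at h
      refine le_of_lt (lt_of_le_of_lt (card_le_card ?_) h)
      intro p hp
      rw [mem_filter] at hp
      rw [mem_filter]
      refine ⟨mem_univ _, ?_⟩
      show σ p ∈ (if p ∈ Γ ×ˢ Γ then ({s} : Finset ℕ) else ∅)
      rw [if_pos hp.1, mem_singleton]
      exact hp.2
    · have h0 : (Γ ×ˢ Γ).filter (fun p => σ p = s) = ∅ := by
        apply Finset.filter_eq_empty_iff.2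
        intro p _ hp
        exact hs (hp ▸ hσ p)
      rw [h0, card_empty]
      exact Nat.zero_le _
  · -- the windows
    have hbase : ∀ c m z : ℕ, c < q ^ 2 → 1 ≤ m → m ≤ q ^ 2 → z < 2 * S + Y →
        ((Γ ×ˢ Γ).filter (fun p =>
        (c ≤ (p.2 + τ p.1).2.val + (p.2 + τ p.1).1.val * q ∧
          (p.2 + τ p.1).2.val + (p.2 + τ p.1).1.val * q < c + m) ∧
            ∃ t ∈ T, S + σ p + t = z)).card * S ≤ 3 * (P m * V (z + 1 - 2 * S)) + L * S := by
      intro c m z hc hm hm' hz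
      have h := hcount (Sum.inr (c, m, z)) (by
        rw [Finset.inr_mem_disjSum, mem_product, mem_product, mem_range, mem_Icc, mem_range]
        exact ⟨hc, ⟨hm, hm'⟩, hz⟩)
      simp only [Sum.elim_inr] at h
      have h1 : ((Γ ×ˢ Γ).filter (fun p =>
          (c ≤ (p.2 + τ p.1).2.val + (p.2 + τ p.1).1.val * q ∧
            (p.2 + τ p.1).2.val + (p.2 + τ p.1).1.val * q < c + m) ∧
              ∃ t ∈ T, S + σ p + t = z)).card < yWN S L P V (c, m, z) := by
        refine lt_of_le_of_lt (card_le_card ?_) h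
        intro p hp
        rw [mem_filter] at hp
        obtain ⟨hp, hst, t, ht, he⟩ := hp
        rw [mem_filter]
        refine ⟨mem_univ _, ?_⟩
        show σ p ∈ BS Γ T S τ (c, m, z) p
        unfold BS
        rw [if_pos (by rw [mem_filter]; exact ⟨hp, hst⟩), mem_filter, mem_range]
        exact ⟨hσ p, t, ht, he⟩
      unfold yWN at h1
      simp only at h1
      have h2 := Nat.lt_succ_iff.mp h1
      calc _ ≤ (3 * (P m * V (z + 1 - 2 * S)) / S + L) * S := Nat.mul_le_mul_right _ h2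
        _ = 3 * (P m * V (z + 1 - 2 * S)) / S * S + L * S := by ring
        _ ≤ _ := Nat.add_le_add_right (Nat.div_mul_le_self _ _) _
    intro c m z hm
    have hlt : ∀ p : (ZMod q × ZMod q) × (ZMod q × ZMod q),
        (p.2 + τ p.1).2.val + (p.2 + τ p.1).1.val * q < q ^ 2 := fun p =>
      Pool.Agent.Helper3.Thin.two_digits_lt (ZMod.val_lt _) (ZMod.val_lt _)
    by_cases hz : z < 2 * S + Y
    · by_cases hc : c < q ^ 2
      · by_cases hm' : m ≤ q ^ 2
        · exact hbase c m z hc hm hm' hz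
        · have hq2 : 1 ≤ q ^ 2 := Nat.one_le_pow _ _ hq
          refine le_trans (Nat.mul_le_mul_right _ (card_le_card ?_))
            (le_trans (hbase c (q ^ 2) z hc hq2 le_rfl hz) ?_)
          · intro p hp
            rw [mem_filter] at hp ⊢
            have := hlt p
            exact ⟨hp.1, ⟨hp.2.1.1, by omega⟩, hp.2.2⟩
          · have : P (q ^ 2) ≤ P m := hP (by omega)
            have := Nat.mul_le_mul_right (V (z + 1 - 2 * S)) this
            omega
      · rw [Finset.filter_eq_empty_iff.2, card_empty]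
        · omega
        · intro p _ hp
          have := hlt p
          omega
    · rw [Finset.filter_eq_empty_iff.2, card_empty]
      · omega
      · rintro p _ ⟨_, t, ht, he⟩
        have := hTY t ht
        have := hσ p
        omega

end Pool.Agent.Helper85.FN
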